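import Mathlib
import Pool.Agent.Lib.MP_61cfb3_pr.Defs
import Pool.Agent.Lib.MP_61cfb3_pr.Proof

namespace Pool.Agent.Results.MP_61cfb3_pr.GeometricNotMinimax

open Pool.Agent.Lib.MP_61cfb3_pr
open scoped ENNReal NNReal

/-- **The geometric trajectory is not a minimax trajectory, for any `p ∈ (0,1)`.**
For every detection probability `p ∈ (0,1)` there is an admitted trajectory `S` of the searcher
whose guaranteed cost `v(S)` is smaller than `p / (2 - p) + 8 / p`, the best guaranteed cost of
monotonic periodic trajectories, by at least `p (1 - p) (2 - p) / 2`. -/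
theorem result (p : ℝ) (hp0 : 0 < p) (hp1 : p < 1) :
    ∃ S : ℝ≥0 → ℝ, IsTrajectory S ∧
      guaranteedCost p S ≤
        ENNReal.ofReal (p / (2 - p) + 8 / p - p * (1 - p) * (2 - p) / 2) ∧
      guaranteedCost p S < ENNReal.ofReal (p / (2 - p) + 8 / p) :=
  exists_better p hp0 hp1

end Pool.Agent.Results.MP_61cfb3_pr.GeometricNotMinimax
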